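import Pool.Agent.W295.PR.Stm

/-!
Project PR: identities for `ev`, `tau`, `rho`.
-/

set_option autoImplicit false

namespace Pool.Agent.W349.PR.EV

open Pool.Agent.W295.PR

theorem binom (D l : ℕ) (hl : l < D) (e f : ℤ) :
    ∑ j : Fin D, ((Nat.choose (l + 1) ((j : ℕ) + 1) : ℕ) : ℤ) * e ^ (l - (j : ℕ)) *
      f ^ ((j : ℕ) + 1) = (e + f) ^ (l + 1) - e ^ (l + 1) := by
  rw [Fin.sum_univ_eq_sum_range (fun j => ((Nat.choose (l + 1) (j + 1) : ℕ) : ℤ) * e ^ (l - j) *
      f ^ (j + 1)) D]
  rw [add_comm e f, add_pow, Finset.sum_range_succ']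
  simp only [pow_zero, Nat.sub_zero, Nat.choose_zero_right, Nat.cast_one, mul_one, one_mul]
  rw [add_sub_cancel_right]
  rw [← Finset.sum_subset (Finset.range_subset_range.2 (Nat.succ_le_of_lt hl))]
  · refine Finset.sum_congr rfl fun j _ => ?_
    rw [Nat.add_sub_add_right]
    ring
  · intro j _ hj
    rw [Finset.mem_range, not_lt] at hj
    rw [Nat.choose_eq_zero_of_lt (by omega)]
    simp

theorem ev_tau (D : ℕ) (e f : ℤ) (q : RR D) :
    ev D f (tau D e q) = ev D (e + f) q - ev D e q := by
  unfold ev tau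
  rw [← Finset.sum_sub_distrib]
  simp only [Finset.sum_mul]
  rw [Finset.sum_comm]
  refine Finset.sum_congr rfl fun l _ => ?_
  rw [← mul_sub, ← binom D l l.2 e f, Finset.mul_sum]
  refine Finset.sum_congr rfl fun j _ => ?_
  ring

theorem ev_inj (D : ℕ) (q q' : RR D) (h : ∀ n : ℤ, ev D n q = ev D n q') : q = q' := by
  set P : Polynomial ℤ := ∑ l : Fin D, Polynomial.C (q l - q' l) * Polynomial.X ^ ((l : ℕ) + 1)
    with hP
  have h0 : P = 0 := by
    apply Polynomial.funext
    intro n
    have := h n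
    unfold ev at this
    rw [hP, Polynomial.eval_finsetSum, Polynomial.eval_zero]
    simp only [Polynomial.eval_mul, Polynomial.eval_C, Polynomial.eval_pow, Polynomial.eval_X,
      sub_mul, Finset.sum_sub_distrib]
    rw [this, sub_self]
  funext l
  have h1 : P.coeff ((l : ℕ) + 1) = q l - q' l := by
    rw [hP, Polynomial.finsetSum_coeff]
    rw [Finset.sum_eq_single l]
    · rw [Polynomial.coeff_C_mul, Polynomial.coeff_X_pow, if_pos rfl, mul_one]
    · intro b _ hb
      rw [Polynomial.coeff_C_mul, Polynomial.coeff_X_pow, if_neg, mul_zero]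
      intro e
      apply hb
      apply Fin.ext
      omega
    · intro h; exact absurd (Finset.mem_univ _) h
  rw [h0, Polynomial.coeff_zero] at h1
  omega

theorem ev_zero (D : ℕ) (q : RR D) : ev D 0 q = 0 := by
  unfold ev
  refine Finset.sum_eq_zero fun l _ => ?_
  rw [zero_pow (by omega), mul_zero]

theorem main : S_EV := by
  intro D e f q q'
  refine ⟨ev_tau D e f q, ?_, ?_, ?_, ?_, ?_, ?_, ev_zero D q⟩
  · apply ev_inj
    intro n
    rw [ev_tau, ev_tau, ev_tau, ev_tau]
    rw [show f + (e + n) = e + f + n by ring, show f + e = e + f by ring]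
    ring
  · apply ev_inj
    intro n
    rw [ev_tau, ev_zero, zero_add, sub_zero]
  · unfold ev
    rw [← Finset.sum_add_distrib]
    refine Finset.sum_congr rfl fun l _ => ?_
    rw [Pi.add_apply, add_mul]
  · funext j
    unfold tau
    rw [Pi.add_apply, ← Finset.sum_add_distrib]
    refine Finset.sum_congr rfl fun l _ => ?_
    rw [Pi.add_apply]
    ring
  · funext j
    unfold rho
    rw [Pi.add_apply, Pi.add_apply]
    ring
  · unfold ev rho
    refine Finset.sum_congr rfl fun l _ => ?_
    rw [mul_pow]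
    ring

end Pool.Agent.W349.PR.EV
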