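import Pool.Agent.W295.PR.Stm

/-!
Project PR: the scaled lower central filtration.
-/

set_option autoImplicit false

namespace Pool.Agent.W349.PR.FILT

open Pool.Agent.W295.PR

theorem lcs_anti (G : Type) [Group G] {m n : ℕ} (h : m ≤ n) : lcs G n ≤ lcs G m :=
  Subgroup.lowerCentralSeries_antitone _ h

theorem main (h : S_LCS) : S_FILT := by
  intro G _ N hN
  constructor
  · intro i
    apply lcs_anti
    apply Nat.sub_le_sub_right
    apply Nat.div_le_div_right
    omega
  · intro i j x hx y hy
    have h1 := h G _ _ x hx y hy
    refine lcs_anti G ?_ h1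
    set p := (i + N - 1) / N with hp
    set q := (j + N - 1) / N with hq
    have e1 : i + N - 1 < p * N + N := Nat.lt_div_mul_add hN
    have e2 : j + N - 1 < q * N + N := Nat.lt_div_mul_add hN
    have e3 : (i + j + N - 1) / N ≤ p + q := by
      rw [← Nat.lt_succ_iff, Nat.div_lt_iff_lt_mul hN]
      have e4 : (p + q).succ * N = p * N + q * N + N := by
        rw [Nat.succ_eq_add_one]; ring
      rw [e4]
      omega
    omega

end Pool.Agent.W349.PR.FILT
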